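import Pool.Agent.Helper4.AZ.Defs

/-!
# AZ, block Z3: Theorem B for the levels of valuations, with the list `A` of `Bad` subspaces

Copy of `FB_comb_sum` (helper42): the levels `{f_i >= t/N}`, `1 <= t <= N`, with the weights `1/N`; then `N → ∞`. The
subspaces are subspaces of the space of linear forms which contain the kernel of `Θ`.
-/

set_option autoImplicit false

namespace Pool.Agent.SQ

open Module

universe u

private lemma FBz_count {N : ℕ} (hN : 0 < N) {y : ℝ} (hy : 0 ≤ y) :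
    (∑ j : Fin N, (if (((j : ℕ) : ℝ) + 1) / N ≤ y then (1 : ℝ) else 0)) ≤ N * y ∧
    (y ≤ 1 → N * y - 1 ≤ ∑ j : Fin N, (if (((j : ℕ) : ℝ) + 1) / N ≤ y then (1 : ℝ) else 0)) := by
  have hN' : (0 : ℝ) < N := by exact_mod_cast hN
  have hNy : 0 ≤ (N : ℝ) * y := by positivity
  have e : (∑ j : Fin N, (if (((j : ℕ) : ℝ) + 1) / N ≤ y then (1 : ℝ) else 0)) = ((min N ⌊(N : ℝ) * y⌋₊ : ℕ) : ℝ) := by
    rw [Fin.sum_univ_eq_sum_range (fun j : ℕ => if ((j : ℝ) + 1) / N ≤ y then (1 : ℝ) else 0) N, ← Finset.sum_filter,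
      Finset.sum_const, nsmul_eq_mul, mul_one]
    congr 1
    have : (Finset.range N).filter (fun j : ℕ => ((j : ℝ) + 1) / N ≤ y) = Finset.range (min N ⌊(N : ℝ) * y⌋₊) := by
      ext j
      rw [Finset.mem_filter, Finset.mem_range, Finset.mem_range, lt_min_iff, div_le_iff₀ hN', mul_comm y]
      refine and_congr_right fun _ => ?_
      rw [← Nat.add_one_le_iff, Nat.le_floor_iff hNy]
      push_cast
      rfl
    rw [this, Finset.card_range]
  rw [e]
  refine ⟨?_, fun h1 => ?_⟩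
  · refine le_trans ?_ (Nat.floor_le hNy)
    exact_mod_cast min_le_right _ _
  · have h2 : ⌊(N : ℝ) * y⌋₊ ≤ N := by
      have h3 : (N : ℝ) * y ≤ N := by nlinarith
      calc ⌊(N : ℝ) * y⌋₊ ≤ ⌊(N : ℝ)⌋₊ := Nat.floor_le_floor h3
        _ = N := Nat.floor_natCast N
    rw [min_eq_right h2]
    have := Nat.lt_floor_add_one ((N : ℝ) * y)
    linarith

/-- dimensions of a subspace, its image and its intersection with the kernel -/
private lemma finrank_map_add_ker {k V K : Type*} [Field k] [AddCommGroup V] [Module k V] [FiniteDimensional k V] [AddCommGroup K]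
    [Module k K] (Θ : V →ₗ[k] K) (E : Submodule k V) :
    finrank k (E.map Θ) + finrank k ↥(E ⊓ LinearMap.ker Θ) = finrank k E := by
  have h := LinearMap.finrank_range_add_finrank_ker (Θ.domRestrict E)
  have h1 : LinearMap.range (Θ.domRestrict E) = E.map Θ := LinearMap.range_domRestrict E Θ
  have h2 : finrank k (LinearMap.ker (Θ.domRestrict E)) = finrank k ↥(E ⊓ LinearMap.ker Θ) := by
    rw [LinearMap.ker_domRestrict, ← Submodule.finrank_map_subtype_eq E, Submodule.map_comap_subtype]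
  rw [h1, h2] at h
  exact h

theorem FBz_step {k : Type u} [Field k] {n q : ℕ} {l : Fin q → Fin (n + 1) → k} {A FF : Finset (Submodule k (Fin (n + 1) → k))}
    (hz : ZL l A FF) {K : Type*} [Field K] [Algebra k K] {I : Type*} [Fintype I] (ω : I → K → ℝ) (hω : ∀ i, RV k (ω i))
    (c : I → ℝ) (Θ : (Fin (n + 1) → k) →ₗ[k] K) (hΘ : Θ ≠ 0) (hl : ∀ i, Θ (l i) ≠ 0) (hA : ∀ E ∈ A, ∃ m ∈ E, Θ m ≠ 0)
    (h0 : ∀ i m, Θ m ≠ 0 → 0 ≤ ω i (Θ m) + c i) (h1 : ∀ i, ∃ m, Θ m ≠ 0 ∧ ω i (Θ m) + c i = 0)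
    (hpf : ∀ m, Θ m ≠ 0 → ∑ i, (ω i (Θ m) + c i) ≤ 1)
    (B : ℕ → ℝ) (hB1 : ∀ d D : ℕ, 1 ≤ d → d ≤ D → D ≤ n + 1 → B d * D ≤ B D * d)
    (hB2 : ∀ p : ℕ, p ≤ n → B (n + 1 - p) + 2 * p ≤ B (n + 1)) {C : ℝ} (hC : 0 ≤ C) {N : ℕ} (hN : 0 < N)
    (hB : ∀ E ∈ FF, E.map Θ ≠ ⊥ → ∑ i, (SN (hω i) N (c i) (E.map Θ) : ℝ) ≤ N * B (finrank k (E.map Θ)) + C) :
    ∑ i, ∑ j, (ω i (Θ (l j)) + c i) ≤ B (n + 1) + (C * (n + 1) + Fintype.card I * q) / N := by
  classical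
  have hN' : (0 : ℝ) < N := by exact_mod_cast hN
  have hle : ∀ i m, Θ m ≠ 0 → ω i (Θ m) + c i ≤ 1 := fun i m hm =>
    (Finset.single_le_sum (f := fun i => ω i (Θ m) + c i) (fun i _ => h0 i m hm) (Finset.mem_univ i)).trans (hpf m hm)
  obtain ⟨W, hW⟩ : ∃ W : I × Fin N → Submodule k (Fin (n + 1) → k), W = fun a =>
      (lev (hω a.1) ((((a.2 : ℕ) : ℝ) + 1) / N - c a.1)).comap Θ := ⟨_, rfl⟩
  have hmem : ∀ (i : I) (t : Fin N) (m : Fin (n + 1) → k), Θ m ≠ 0 →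
      (m ∈ W (i, t) ↔ (((t : ℕ) : ℝ) + 1) / N ≤ ω i (Θ m) + c i) := by
    intro i t m hm
    rw [hW]
    show (Θ m = 0 ∨ _) ↔ _
    constructor
    · rintro (h | h)
      · exact absurd h hm
      · have h' : (((t : ℕ) : ℝ) + 1) / N - c i ≤ ω i (Θ m) := h
        linarith
    · intro h
      right
      show (((t : ℕ) : ℝ) + 1) / N - c i ≤ ω i (Θ m)
      linarith
  obtain ⟨eq, -⟩ : ∃ eq : Fin (Fintype.card (I × Fin N)) ≃ I × Fin N, True := ⟨(Fintype.equivFin _).symm, trivial⟩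
  have hker : ∀ a, LinearMap.ker Θ ≤ W a := by
    intro a m hm
    rw [hW]
    show (Θ m = 0 ∨ _)
    exact Or.inl hm
  have hne : ∀ a, W a ≠ ⊤ := by
    rintro ⟨i, t⟩ h
    obtain ⟨m, hm, hm1⟩ := h1 i
    have h2 : m ∈ W (i, t) := by rw [h]; trivial
    rw [hmem i t m hm] at h2
    have h3 : (0 : ℝ) < (((t : ℕ) : ℝ) + 1) / N := by positivity
    linarith
  have hx : ∀ m, m ∉ LinearMap.ker Θ → ∑ a with m ∈ W (eq a), (1 / (N : ℝ)) ≤ 1 := by
    intro m hm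
    have hx' : Θ m ≠ 0 := hm
    rw [Finset.sum_filter, Equiv.sum_comp eq (fun a => if m ∈ W a then (1 / (N : ℝ)) else 0), Fintype.sum_prod_type]
    refine le_trans (Finset.sum_le_sum fun i _ => ?_) (hpf m hx')
    have h2 := (FBz_count hN (h0 i m hx')).1
    have h3 : ∑ t : Fin N, (if m ∈ W (i, t) then (1 / (N : ℝ)) else 0) =
        1 / N * ∑ t : Fin N, (if (((t : ℕ) : ℝ) + 1) / N ≤ ω i (Θ m) + c i then (1 : ℝ) else 0) := by
      rw [Finset.mul_sum]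
      refine Finset.sum_congr rfl fun t _ => ?_
      rw [mul_ite, mul_one, mul_zero]
      exact if_congr (hmem i t m hx') rfl rfl
    rw [h3, one_div, inv_mul_le_iff₀ hN']
    exact h2
  -- the dimensions of the levels
  have hdim : ∀ (E : Submodule k (Fin (n + 1) → k)) (a : I × Fin N),
      (finrank k ↥(E ⊓ W a) : ℝ) - finrank k ↥(E ⊓ LinearMap.ker Θ) =
        finrank k ↥(E.map Θ ⊓ lev (hω a.1) ((((a.2 : ℕ) : ℝ) + 1) / N - c a.1)) := by
    intro E a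
    have h2 := finrank_map_add_ker Θ (E ⊓ W a)
    have h3 : (E ⊓ W a) ⊓ LinearMap.ker Θ = E ⊓ LinearMap.ker Θ := by
      rw [inf_assoc, inf_eq_right.2 (hker a)]
    have h4 : (E ⊓ W a).map Θ = E.map Θ ⊓ lev (hω a.1) ((((a.2 : ℕ) : ℝ) + 1) / N - c a.1) := by
      rw [hW]
      ext y
      constructor
      · rintro ⟨m, ⟨hm1, hm2⟩, rfl⟩
        exact ⟨Submodule.mem_map_of_mem hm1, hm2⟩
      · rintro ⟨⟨m, hm1, rfl⟩, hm2⟩
        exact ⟨m, ⟨hm1, hm2⟩, rfl⟩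
    rw [h3, h4] at h2
    have h5 : ((finrank k ↥(E.map Θ ⊓ lev (hω a.1) ((((a.2 : ℕ) : ℝ) + 1) / N - c a.1)) : ℕ) : ℝ) +
        finrank k ↥(E ⊓ LinearMap.ker Θ) = finrank k ↥(E ⊓ W a) := by exact_mod_cast h2
    linarith
  have hr : ∀ (E : Submodule k (Fin (n + 1) → k)) (i : I), ∑ t : Fin N,
      (finrank k ↥(E.map Θ ⊓ lev (hω i) ((((t : ℕ) : ℝ) + 1) / N - c i)) : ℝ) = (SN (hω i) N (c i) (E.map Θ) : ℝ) := by
    intro E i
    have e2 : SN (hω i) N (c i) (E.map Θ) = ∑ j ∈ Finset.range N, finrank k ↥(E.map Θ ⊓ lev (hω i) (((j : ℝ) + 1) / N - c i)) := by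
      unfold SN
      refine finsum_eq_sum_of_support_subset _ fun j hj => ?_
      rw [Finset.coe_range, Set.mem_Iio]
      by_contra hjN
      push Not at hjN
      apply hj
      have : E.map Θ ⊓ lev (hω i) (((j : ℝ) + 1) / N - c i) = ⊥ := by
        rw [eq_bot_iff]
        rintro x ⟨hx1, hx2⟩
        rw [Submodule.mem_bot]
        by_contra hx0
        obtain ⟨m, -, rfl⟩ := hx1
        rcases hx2 with h | h
        · exact hx0 h
        · have h3 := hle i m hx0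
          have h4 : (1 : ℝ) < ((j : ℝ) + 1) / N := by
            rw [lt_div_iff₀ hN']
            have : (N : ℝ) ≤ j := by exact_mod_cast hjN
            linarith
          linarith
      show finrank k ↥(E.map Θ ⊓ lev (hω i) (((j : ℝ) + 1) / N - c i)) = 0
      rw [this, finrank_bot]
    rw [e2, ← Fin.sum_univ_eq_sum_range (fun j : ℕ => finrank k ↥(E.map Θ ⊓ lev (hω i) (((j : ℝ) + 1) / N - c i))) N]
    push_cast
    rfl
  have hdE : ∀ E : Submodule k (Fin (n + 1) → k), finrank k E - finrank k ↥(E ⊓ LinearMap.ker Θ) = finrank k (E.map Θ) := by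
    intro E
    have := finrank_map_add_ker Θ E
    omega
  obtain ⟨δ, hδ⟩ : ∃ δ : ℝ, δ = C / N := ⟨_, rfl⟩
  have hδ0 : 0 ≤ δ := by rw [hδ]; positivity
  have key := hz.2 (LinearMap.ker Θ) (fun h => hΘ (LinearMap.ker_eq_top.1 h)) (fun i => hl i)
    (fun E hE h => by
      obtain ⟨m, hm, hm0⟩ := hA E hE
      exact hm0 (h hm))
    (Fintype.card (I × Fin N)) (fun a => W (eq a)) (fun _ => 1 / (N : ℝ)) (fun a => hker _) (fun a => hne _) (fun _ => by positivity)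
    (by
      intro m hm
      exact hx m hm)
    (fun d => B d + δ * d)
    (by
      intro d D hd hdD hD
      have := hB1 d D hd hdD hD
      nlinarith)
    (by
      intro p hp
      have := hB2 p hp
      have h2 : ((n + 1 - p : ℕ) : ℝ) ≤ ((n + 1 : ℕ) : ℝ) := by exact_mod_cast Nat.sub_le _ _
      nlinarith)
    (by
      intro E hE hEN
      have hEb : E.map Θ ≠ ⊥ := by
        intro h
        apply hEN
        intro m hm
        have h2 : Θ m ∈ E.map Θ := Submodule.mem_map_of_mem hm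
        rw [h, Submodule.mem_bot] at h2
        exact h2
      have h2 := hB E hE hEb
      have h3 : (1 : ℝ) ≤ finrank k (E.map Θ) := by
        have h4 : 0 < finrank k (E.map Θ) := by
          rw [Nat.pos_iff_ne_zero]
          intro h5
          exact hEb (Submodule.finrank_eq_zero.1 h5)
        exact_mod_cast h4
      rw [Equiv.sum_comp eq (fun a => 1 / (N : ℝ) * ((finrank k ↥(E ⊓ W a) : ℝ) - finrank k ↥(E ⊓ LinearMap.ker Θ))), ← Finset.mul_sum,
        Fintype.sum_prod_type]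
      have h5 : ∑ i, ∑ t : Fin N, ((finrank k ↥(E ⊓ W (i, t)) : ℝ) - finrank k ↥(E ⊓ LinearMap.ker Θ)) =
          ∑ i, (SN (hω i) N (c i) (E.map Θ) : ℝ) := by
        refine Finset.sum_congr rfl fun i _ => ?_
        rw [← hr E i]
        exact Finset.sum_congr rfl fun t _ => hdim E (i, t)
      rw [h5, hdE E, one_div, inv_mul_le_iff₀ hN']
      have h6 : (N : ℝ) * (B (finrank k (E.map Θ)) + δ * finrank k (E.map Θ)) =
          N * B (finrank k (E.map Θ)) + C * finrank k (E.map Θ) := by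
        rw [hδ]
        field_simp
      rw [h6]
      nlinarith)
  rw [Equiv.sum_comp eq (fun a => 1 / (N : ℝ) * ((Finset.univ.filter fun i => l i ∈ W a).card : ℝ)), ← Finset.mul_sum,
    Fintype.sum_prod_type] at key
  have hll : ∀ i, ∑ j, ((N : ℝ) * (ω i (Θ (l j)) + c i) - 1) ≤ ∑ t : Fin N, ((Finset.univ.filter fun j => l j ∈ W (i, t)).card : ℝ) := by
    intro i
    have e1 : ∑ t : Fin N, ((Finset.univ.filter fun j => l j ∈ W (i, t)).card : ℝ) =
        ∑ j, ∑ t : Fin N, (if (((t : ℕ) : ℝ) + 1) / N ≤ ω i (Θ (l j)) + c i then (1 : ℝ) else 0) := by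
      rw [Finset.sum_comm]
      refine Finset.sum_congr rfl fun t _ => ?_
      rw [Finset.card_filter, Nat.cast_sum]
      refine Finset.sum_congr rfl fun j _ => ?_
      rw [Nat.cast_ite, Nat.cast_one, Nat.cast_zero]
      exact if_congr (hmem i t (l j) (hl j)) rfl rfl
    rw [e1]
    refine Finset.sum_le_sum fun j _ => ?_
    exact (FBz_count hN (h0 i _ (hl j))).2 (hle i _ (hl j))
  have h5 : 1 / (N : ℝ) * ∑ i, ∑ j, ((N : ℝ) * (ω i (Θ (l j)) + c i) - 1) ≤ B (n + 1) + δ * (n + 1 : ℕ) :=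
    le_trans (mul_le_mul_of_nonneg_left (Finset.sum_le_sum fun i _ => hll i) (by positivity)) key
  have h6 : 1 / (N : ℝ) * ∑ i, ∑ j, ((N : ℝ) * (ω i (Θ (l j)) + c i) - 1) = ∑ i, ∑ j, (ω i (Θ (l j)) + c i) - Fintype.card I * q / N := by
    have : ∑ i, ∑ j, ((N : ℝ) * (ω i (Θ (l j)) + c i) - 1) = N * ∑ i, ∑ j, (ω i (Θ (l j)) + c i) - Fintype.card I * q := by
      simp only [Finset.sum_sub_distrib, ← Finset.mul_sum, Finset.sum_const, Finset.card_univ, Fintype.card_fin, nsmul_eq_mul, mul_one]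
    rw [this, mul_sub, ← mul_assoc, one_div, inv_mul_cancel₀ hN'.ne', one_mul, ← div_eq_inv_mul]
  rw [h6] at h5
  have h7 : (C * (n + 1) + Fintype.card I * q) / N = δ * (n + 1 : ℕ) + Fintype.card I * q / N := by
    rw [hδ]
    push_cast
    ring
  rw [h7]
  linarith

theorem thmB_z {k : Type u} [Field k] {n q : ℕ} {l : Fin q → Fin (n + 1) → k} {A FF : Finset (Submodule k (Fin (n + 1) → k))}
    (hz : ZL l A FF) {K : Type*} [Field K] [Algebra k K] {I : Type*} [Fintype I] (ω : I → K → ℝ) (hω : ∀ i, RV k (ω i))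
    (c : I → ℝ) (Θ : (Fin (n + 1) → k) →ₗ[k] K) (hΘ : Θ ≠ 0) (hl : ∀ i, Θ (l i) ≠ 0) (hA : ∀ E ∈ A, ∃ m ∈ E, Θ m ≠ 0)
    (h0 : ∀ i m, Θ m ≠ 0 → 0 ≤ ω i (Θ m) + c i) (h1 : ∀ i, ∃ m, Θ m ≠ 0 ∧ ω i (Θ m) + c i = 0)
    (hpf : ∀ m, Θ m ≠ 0 → ∑ i, (ω i (Θ m) + c i) ≤ 1)
    (B : ℕ → ℝ) (hB1 : ∀ d D : ℕ, 1 ≤ d → d ≤ D → D ≤ n + 1 → B d * D ≤ B D * d)
    (hB2 : ∀ p : ℕ, p ≤ n → B (n + 1 - p) + 2 * p ≤ B (n + 1))
    (hB : ∀ E : Submodule k K, E ≠ ⊥ → E ≤ LinearMap.range Θ → ∃ C : ℝ, ∀ N : ℕ, 0 < N →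
      ∑ i, (SN (hω i) N (c i) E : ℝ) ≤ N * B (finrank k E) + C) :
    ∑ i, ∑ j, (ω i (Θ (l j)) + c i) ≤ B (n + 1) := by
  classical
  have hC : ∀ E : Submodule k (Fin (n + 1) → k), ∃ C : ℝ, 0 ≤ C ∧ (E.map Θ ≠ ⊥ → ∀ N : ℕ, 0 < N →
      ∑ i, (SN (hω i) N (c i) (E.map Θ) : ℝ) ≤ N * B (finrank k (E.map Θ)) + C) := by
    intro E
    by_cases hE : E.map Θ = ⊥
    · exact ⟨0, le_rfl, fun h => absurd hE h⟩
    · obtain ⟨C, h⟩ := hB (E.map Θ) hE (LinearMap.map_le_range)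
      exact ⟨|C|, abs_nonneg C, fun _ N hN => (h N hN).trans (by have := le_abs_self C; linarith)⟩
  choose C hC0 hC1 using hC
  obtain ⟨Ct, hCt⟩ : ∃ Ct : ℝ, Ct = ∑ E ∈ FF, C E := ⟨_, rfl⟩
  have hCt0 : 0 ≤ Ct := by rw [hCt]; exact Finset.sum_nonneg fun E _ => hC0 E
  have key : ∀ N : ℕ, 0 < N → ∑ i, ∑ j, (ω i (Θ (l j)) + c i) ≤ B (n + 1) + (Ct * (n + 1) + Fintype.card I * q) / N := by
    intro N hN
    refine FBz_step hz ω hω c Θ hΘ hl hA h0 h1 hpf B hB1 hB2 hCt0 hN fun E hE hEb => ?_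
    have h2 := hC1 E hEb N hN
    have h3 : C E ≤ Ct := by
      rw [hCt]
      exact Finset.single_le_sum (f := C) (fun E _ => hC0 E) hE
    linarith
  refine le_of_forall_pos_le_add fun ε hε => ?_
  obtain ⟨N, hN1⟩ := exists_nat_gt ((Ct * (n + 1) + Fintype.card I * q) / ε)
  have hB' : (0 : ℝ) ≤ Ct * (n + 1) + Fintype.card I * q := by positivity
  have hN' : (0 : ℝ) < N := lt_of_le_of_lt (by positivity) hN1
  have h9 : (Ct * (n + 1) + Fintype.card I * q) / N ≤ ε := by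
    rw [div_le_iff₀ hN']
    rw [div_lt_iff₀ hε] at hN1
    linarith
  have := key N (by exact_mod_cast hN')
  linarith

end Pool.Agent.SQ
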