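import Pool.Agent.Helper27.TOW.GABT
import Pool.Agent.Helper61.AZ.ThmB

/-!
# AZ, block Z4b: the theorem for the germs of a sequence of points which are fixed by a subnormal subgroup, with the list `A`
-/

set_option autoImplicit false

namespace Pool.Agent.SQ

open NumberField Filter Module MvPolynomial
open Pool.Agent.Helper64.Vojta (Pl nv sn above)
open Pool.Agent.V2
open Pool.Agent.Chart (fld dg crd val hgt lam)

universe u

theorem germsB_tz {k : Type u} [Field k] [NumberField k] {G : Type} [Group G] [Fintype G] {D : SqG k G} {H : Subgroup G}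
    [Fintype (G ⧸ H)] (hH : H.IsSubnormal) {n : ℕ} (x : ∀ a, Fin (n + 1) → D.L a) (hx : Ptg D x)
    (hxH : ∀ a, ∀ h ∈ H, ∀ j, D.s a h (x a j) = x a j) {q : ℕ} {l : Fin q → Fin (n + 1) → k} (hl : ∀ i, l i ∉ vang D x)
    {A FF : Finset (Submodule k (Fin (n + 1) → k))} (hz : ZL l A FF) (hA : ∀ E ∈ A, ¬ E ≤ vang D x) (P : Finset (Pl k))
    {r : ℕ} (hr : 2 ≤ r) (hHr : H.index ≤ r) {ε : ℝ} (hε : 0 < ε) :
    ∀ᶠ a in (D.U : Filter ℕ), ∑ v ∈ P, ∑ g, ∑ i, (Real.log (mxn (D.N a v) fun j => D.s a g (x a j)) -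
      Real.log (D.N a v (D.s a g (lvg (l i) (x a))))) ≤ (r * (n + 1) + ε) * D.H a := by
  obtain ⟨F⟩ := ger_g D
  obtain ⟨ξ, hξ⟩ := exists_xig F x hx
  set Θ : (Fin (n + 1) → k) →ₗ[k] F.K := Fintype.linearCombination k ξ with hΘdef
  have hΘ : ∀ m, Θ m = ∑ j, m j • ξ j := fun m => Fintype.linearCombination_apply k ξ m
  have hrange : LinearMap.range Θ = Submodule.span k (Set.range ξ) := Fintype.range_linearCombination k ξ
  have hrp0 : ∀ᶠ a in (D.U : Filter ℕ), F.rp 0 a = 0 := by
    filter_upwards [F.rp_alg 0] with a ha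
    rw [map_zero, map_zero] at ha
    exact ha
  have hker : LinearMap.ker Θ = vang D x := by
    ext m
    have h1 := rp_lvg F x hx ξ hξ m
    rw [← hΘ] at h1
    rw [LinearMap.mem_ker]
    constructor
    · intro h2
      rw [h2] at h1
      show ∀ᶠ a in (D.U : Filter ℕ), lvg m (x a) = 0
      filter_upwards [h1, hrp0] with a h3 h4
      rw [← h3, h4]
    · intro h2
      refine F.rp_inj _ _ ?_
      have h3 : ∀ᶠ a in (D.U : Filter ℕ), lvg m (x a) = 0 := h2
      filter_upwards [h1, hrp0, h3] with a h4 h5 h6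
      rw [h4, h5, h6]
  have hcinv : ∀ (v : Pl k) (g : G), ∀ h ∈ H, cg D x v (g * h) = cg D x v g := by
    intro v g h hh
    unfold cg
    congr 1
    funext a
    congr 3
    funext j
    rw [map_mul, AlgEquiv.mul_apply, hxH a h hh j]
  have hvinv : ∀ z ∈ Submodule.span k (Set.range ξ), ∀ h ∈ H, F.s h z = z := by
    intro z hz h hh
    induction hz using Submodule.span_induction with
    | mem z hz =>
      obtain ⟨j, rfl⟩ := hz
      refine F.rp_inj _ _ ?_
      filter_upwards [F.rp_s h (ξ j), hξ j] with a h1 h2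
      rw [h1, h2, hxH a h hh j]
    | zero => exact map_zero _
    | add a b _ _ ha hb => rw [map_add, ha, hb]
    | smul c a _ ha => rw [map_smul, ha]
  have hΘV : ∀ m, Θ m ∈ Submodule.span k (Set.range ξ) := fun m => by
    rw [← hrange]
    exact LinearMap.mem_range_self Θ m
  have hVΘ : ∀ z ∈ Submodule.span k (Set.range ξ), ∃ m, Θ m = z := fun z hz => by
    rw [← hrange] at hz
    exact hz
  have hΘ0 : Θ ≠ 0 := by
    intro h
    obtain ⟨v, g⟩ : Nonempty (Pl k × G) := ⟨(.inl Classical.ofNonempty, 1)⟩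
    obtain ⟨z, h1, h2, -⟩ := omg_attained F x hx ξ hξ v g
    obtain ⟨m, rfl⟩ := hVΘ z h1
    apply h2
    rw [h]
    rfl
  have hL : ∀ i, Θ (l i) ≠ 0 := by
    intro i h
    rw [← LinearMap.mem_ker, hker] at h
    exact hl i h
  have hr0 : (0 : ℝ) ≤ r := Nat.cast_nonneg r
  have hr2 : (2 : ℝ) ≤ r := by exact_mod_cast hr
  have key := thmB_z hz (I := P × G) (fun i z => omg F i.1 (F.s i.2 z)) (fun i => (omg_RV F i.1).comp (F.s i.2))
    (fun i => cg D x i.1 i.2) Θ hΘ0 hL
    (fun E hE => by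
      by_contra h
      push Not at h
      refine hA E hE fun m hm => ?_
      rw [← hker]
      exact h m hm)
    (fun i m hm => omg_nonneg F x hx ξ hξ i.1 i.2 (Θ m) (hΘV m) hm)
    (fun i => by
      obtain ⟨z, h1, h2, h3⟩ := omg_attained F x hx ξ hξ i.1 i.2
      obtain ⟨m, rfl⟩ := hVΘ z h1
      exact ⟨m, h2, h3⟩)
    (fun m hm => by
      have h1 := omg_prod F x hx ξ hξ P (Θ m) (hΘV m) hm
      rw [← Finset.sum_coe_sort P (fun v => ∑ g, (omg F v (F.s g (Θ m)) + cg D x v g))] at h1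
      rw [Fintype.sum_prod_type]
      exact h1)
    (fun d => r * d)
    (fun d D' _ _ _ => by
      show (r : ℝ) * d * D' ≤ r * D' * d
      exact le_of_eq (by ring))
    (fun p hp => by
      show (r : ℝ) * ((n + 1 - p : ℕ) : ℝ) + 2 * p ≤ r * ((n + 1 : ℕ) : ℝ)
      rw [Nat.cast_sub (by omega)]
      have : (0 : ℝ) ≤ p := Nat.cast_nonneg p
      push_cast
      nlinarith)
    (fun E hE0 hE => by
      have hEV : E ≤ Submodule.span k (Set.range ξ) := by rw [← hrange]; exact hE
      have : FiniteDimensional k (Submodule.span k (Set.range ξ)) := FiniteDimensional.span_of_finite k (Set.finite_range ξ)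
      have : FiniteDimensional k E := Submodule.finiteDimensional_of_le hEV
      refine ⟨0, fun N hN => ?_⟩
      have h1 := abs_t F.s hH (P := P) (fun v => omg F v) (fun v => omg_RV F v) (fun v g => cg D x v g)
        (fun v g h hh => hcinv v g h hh) E (fun z hz => hvinv z (hEV hz))
        (fun v g z hz hz0 => omg_nonneg F x hx ξ hξ v g z (hEV hz) hz0)
        (fun m E' hE' hEs N z hz hzE => sub_t F x hx hxH ξ hξ P m E'
          (hE'.trans (pow_le_pow_left' (Finset.prod_le_prod' fun q _ => Submodule.map_mono hEV) m)) hEs N z hz hzE) hN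
      rw [Fintype.sum_prod_type]
      have h2 : (∑ v : P, ∑ g, (SN ((omg_RV F v).comp (F.s g)) N (cg D x v g) E : ℝ)) ≤ H.index * N * finrank k E := by
        exact_mod_cast h1
      refine le_trans (le_of_eq rfl) (h2.trans ?_)
      have h3 : (H.index : ℝ) ≤ r := by exact_mod_cast hHr
      have h4 : (0 : ℝ) ≤ N * finrank k E := by positivity
      have h5 : (H.index : ℝ) * (N * finrank k E) ≤ r * (N * finrank k E) := mul_le_mul_of_nonneg_right h3 h4
      linarith)
  have key' : ∑ v ∈ P, ∑ g, ∑ i, (omg F v (F.s g (Θ (l i))) + cg D x v g) ≤ r * (n + 1) := by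
    rw [← Finset.sum_coe_sort P
      (fun v => ∑ g, ∑ i, (omg F v (F.s g (Θ (l i))) + cg D x v g))]
    rw [Fintype.sum_prod_type] at key
    refine key.trans (le_of_eq ?_)
    push_cast
    ring
  have hlim : ∀ (v : Pl k) (g : G) (i : Fin q), Tendsto (fun a => (Real.log (mxn (D.N a v) fun j => D.s a g (x a j)) -
      Real.log (D.N a v (D.s a g (lvg (l i) (x a))))) / D.H a) (D.U : Filter ℕ)
      (nhds (omg F v (F.s g (Θ (l i))) + cg D x v g)) := by
    intro v g i
    have h0 : F.s g (Θ (l i)) ≠ 0 := by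
      rw [Ne, EmbeddingLike.map_eq_zero_iff]
      exact hL i
    have h1 := (omg_tendsto F v _ h0).add (cg_tendsto x hx v g)
    refine h1.congr' ?_
    have h2 := rp_lvg F x hx ξ hξ (l i)
    rw [← hΘ] at h2
    filter_upwards [h2, F.rp_s g (Θ (l i))] with a h3 h4
    rw [h4, h3]
    ring
  have hsum : Tendsto (fun a => ∑ v ∈ P, ∑ g, ∑ i, (Real.log (mxn (D.N a v) fun j => D.s a g (x a j)) -
      Real.log (D.N a v (D.s a g (lvg (l i) (x a))))) / D.H a) (D.U : Filter ℕ)
      (nhds (∑ v ∈ P, ∑ g, ∑ i, (omg F v (F.s g (Θ (l i))) + cg D x v g))) :=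
    tendsto_finsetSum _ fun v _ => tendsto_finsetSum _ fun g _ => tendsto_finsetSum _ fun i _ => hlim v g i
  have hlt : ∑ v ∈ P, ∑ g, ∑ i, (omg F v (F.s g (Θ (l i))) + cg D x v g) < r * (n + 1) + ε := by linarith
  filter_upwards [hsum.eventually (gt_mem_nhds hlt), D.H1.eventually (eventually_gt_atTop 0)] with a h1 h2
  have h3 : ∑ v ∈ P, ∑ g, ∑ i, (Real.log (mxn (D.N a v) fun j => D.s a g (x a j)) -
      Real.log (D.N a v (D.s a g (lvg (l i) (x a))))) / D.H a = (∑ v ∈ P, ∑ g, ∑ i, (Real.log (mxn (D.N a v) fun j =>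
      D.s a g (x a j)) - Real.log (D.N a v (D.s a g (lvg (l i) (x a)))))) / D.H a := by
    simp only [Finset.sum_div]
  rw [h3, div_lt_iff₀ h2] at h1
  exact h1.le

end Pool.Agent.SQ
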